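import Mathlib
import Pool.Agent.R240.GenJ

set_option autoImplicit false

open Filter Topology Set Metric Complex MeasureTheory Polynomial
open scoped ComplexConjugate

namespace Pool.Agent.Results.MP_70a088_an.AllPolynomials

/-- The filled Julia set of a polynomial: the points with bounded orbits. -/
def filledJulia (f : ℂ[X]) : Set ℂ := {z | ∃ B : ℝ, ∀ n : ℕ, ‖(fun z => f.eval z)^[n] z‖ ≤ B}

/-- The Julia set of a polynomial is the boundary of its filled Julia set. -/
def julia (f : ℂ[X]) : Set ℂ := frontier (filledJulia f)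

/-- `μ` is an invariant line field of `f` supported on the Julia set. -/
def InvariantLineField (f : ℂ[X]) (μ : ℂ → ℂ) : Prop :=
  Measurable μ ∧
    (∃ X : Set ℂ, MeasurableSet X ∧ 0 < volume X ∧ X ⊆ julia f ∧ (∀ z ∈ X, ‖μ z‖ = 1) ∧
      ∀ z, z ∉ X → μ z = 0) ∧
    ∀ᵐ z : ℂ, μ (f.eval z) * conj (f.derivative.eval z) / f.derivative.eval z = μ z

/-- The potential of the restriction of `μ` to the Julia set. For bounded `μ` this is a
quasiconformal vector field, with `∂̄`-derivative `- π μ` on the Julia set and `0` off it. -/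
noncomputable def u (f : ℂ[X]) (μ : ℂ → ℂ) (w : ℂ) : ℂ := ∫ x in julia f, μ x / (x - w)

/-- The rational function `f'(z) / (x - z) - 1 / (x - f z)` of `x`. -/
noncomputable def κ (f : ℂ[X]) (z x : ℂ) : ℂ :=
  f.derivative.eval z / (x - z) - 1 / (x - f.eval z)

/-- On the set `E` the polynomial `p` is the coboundary `u ∘ f - f' u` of the quasiconformal vector
field of a bounded function on the Julia set. -/
def Coboundary (f p : ℂ[X]) (E : Set ℂ) : Prop :=
  ∃ (μ : ℂ → ℂ) (B : ℝ), Measurable μ ∧ (∀ x, ‖μ x‖ ≤ B) ∧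
    ∀ z ∈ E, u f μ (f.eval z) - f.derivative.eval z * u f μ z = p.eval z

/-- The `L¹` inequality for the polynomial `p` and the families of points of the set `E`. -/
def L1Inequality (f p : ℂ[X]) (E : Set ℂ) : Prop :=
  ∃ C : ℝ, ∀ (s : Finset ℂ) (a : ℂ → ℂ), (∀ z ∈ s, z ∈ E) →
    ‖∑ z ∈ s, a z * p.eval z‖ ≤ C * ∫ x in julia f, ‖∑ z ∈ s, a z * κ f z x‖

theorem κ_eq (f : ℂ[X]) (z x : ℂ) : κ f z x = Pool.Agent.R240.Gen.ker f z x := by
  unfold κ Pool.Agent.R240.Gen.ker
  rw [mul_one_div]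

theorem line_iff (f : ℂ[X]) (μ : ℂ → ℂ) :
    InvariantLineField f μ ↔ Pool.Agent.R240.Gen.LineField f μ := by
  have h : ∀ z, μ (f.eval z) * conj (f.derivative.eval z) / f.derivative.eval z =
      Pool.Agent.R240.Gen.pbp f μ z := by
    intro z
    unfold Pool.Agent.R240.Gen.pbp
    rw [mul_div_assoc]
  unfold InvariantLineField Pool.Agent.R240.Gen.LineField
  simp only [h]
  constructor
  · rintro ⟨h1, h2, h3⟩
    exact ⟨h1, h3, h2⟩
  · rintro ⟨h1, h2, h3⟩
    exact ⟨h1, h3, h2⟩

theorem julia_meas (f : ℂ[X]) : MeasurableSet (julia f) := isClosed_frontier.measurableSet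

theorem u_eq {f : ℂ[X]} {μ : ℂ → ℂ} (hs : ∀ x, x ∉ julia f → μ x = 0) (w : ℂ) :
    u f μ w = Pool.Agent.R240.Cau.cau μ w := by
  unfold u Pool.Agent.R240.Cau.cau
  rw [← integral_indicator (julia_meas f)]
  congr 1
  funext x
  by_cases hx : x ∈ julia f
  · rw [indicator_of_mem hx, mul_one_div]
  · rw [indicator_of_notMem hx, hs x hx, zero_mul]

/-- **Invariant line fields of polynomials and coboundaries.** Let `f` be a polynomial of degree at
least two and `E` any set which is dense in the Julia set, in the sense that its closure contains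
the Julia set (for instance the backward orbit of a point of the Julia set). Then `f` has an
invariant line field on its Julia set if and only if some nonzero polynomial is a coboundary
`u ∘ f - f' u` on `E`, if and only if some nonzero polynomial of degree at most `deg f - 2` is a
coboundary on the whole plane, and if and only if the corresponding `L¹` inequalities hold. For the
polynomials `z ^ d + c` the constant polynomial `1` is enough. -/
theorem result {f : ℂ[X]} (hf : 2 ≤ f.natDegree) {E : Set ℂ} (hE : julia f ⊆ closure E) :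
    [∃ μ, InvariantLineField f μ,
      ∃ p : ℂ[X], p ≠ 0 ∧ Coboundary f p E,
      ∃ p : ℂ[X], p ≠ 0 ∧ p.natDegree ≤ f.natDegree - 2 ∧ Coboundary f p univ,
      ∃ p : ℂ[X], p ≠ 0 ∧ L1Inequality f p E,
      ∃ p : ℂ[X], p ≠ 0 ∧ p.natDegree ≤ f.natDegree - 2 ∧ L1Inequality f p univ].TFAE ∧
    ∀ (d : ℕ) (c : ℂ), f = X ^ d + C c →
      [∃ μ, InvariantLineField f μ, Coboundary f 1 E, Coboundary f 1 univ, L1Inequality f 1 E,
        L1Inequality f 1 univ].TFAE := by
  obtain ⟨R₀, hE₀⟩ := Pool.Agent.R240.Gen.exists_esc hf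
  have hR0 : 0 ≤ R₀ := zero_le_one.trans hE₀.one
  have main : ∀ (μ : ℂ → ℂ) (B : ℝ), Pool.Agent.R240.Cau.BS R₀ B μ →
      (∀ x, x ∉ julia f → μ x = 0) → ∀ p : ℂ[X], p ≠ 0 →
      (∀ z ∈ E, Pool.Agent.R240.Cau.cau μ (f.eval z) -
        f.derivative.eval z * Pool.Agent.R240.Cau.cau μ z = p.eval z) →
      ∃ ν, InvariantLineField f ν := by
    intro μ B hb hs p hp hcob
    have hc := hb.cont
    have hJ : ∀ z ∈ Pool.Agent.R240.Gen.JJ f, Pool.Agent.R240.Cau.cau μ (f.eval z) -
        f.derivative.eval z * Pool.Agent.R240.Cau.cau μ z = p.eval z := by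
      intro z hz
      have h1 : closure E ⊆ {z | Pool.Agent.R240.Cau.cau μ (f.eval z) -
          f.derivative.eval z * Pool.Agent.R240.Cau.cau μ z = p.eval z} :=
        closure_minimal hcob (isClosed_eq ((hc.comp f.continuous).sub
          (f.derivative.continuous.mul hc)) p.continuous)
      exact h1 (hE hz)
    obtain ⟨h1, h2, _⟩ := Pool.Agent.R240.Gen.global hf hR0 hb hs hJ
    obtain ⟨ν, hν⟩ := Pool.Agent.R240.Gen.line_of_inv hf hb hs h2
      (Pool.Agent.R240.Gen.ne_of_cob hp h1)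
    exact ⟨ν, (line_iff f ν).2 hν⟩
  have g41 : ∀ p : ℂ[X], p ≠ 0 → L1Inequality f p E → ∃ ν, InvariantLineField f ν := by
    rintro p hp ⟨C, hC⟩
    obtain ⟨μ, hb, hs, hcob⟩ := Pool.Agent.R240.Gen.cob_of_ineq hf hE₀ (p := p) (E := E) (A := C) (by
      intro s a hsE
      have h1 := hC s a hsE
      simp only [κ_eq] at h1
      exact h1)
    exact main μ _ hb hs p hp hcob
  have g21 : ∀ p : ℂ[X], p ≠ 0 → Coboundary f p E → ∃ ν, InvariantLineField f ν := by
    rintro p hp ⟨μ, B, hm, hb, hcob⟩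
    obtain ⟨μ', hμ'⟩ : ∃ μ' : ℂ → ℂ, μ' = (julia f).indicator μ := ⟨_, rfl⟩
    have hs : ∀ x, x ∉ julia f → μ' x = 0 := by
      intro x hx
      rw [hμ', indicator_of_notMem hx]
    have hB0 : 0 ≤ B := (norm_nonneg _).trans (hb 0)
    have hu : ∀ w, u f μ w = Pool.Agent.R240.Cau.cau μ' w := by
      intro w
      rw [← u_eq hs]
      unfold u
      apply setIntegral_congr_fun (julia_meas f)
      intro x hx
      simp only
      rw [hμ', indicator_of_mem hx]
    refine main μ' B ⟨?_, fun x => ?_, fun x hx => ?_⟩ hs p hp fun z hz => ?_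
    · rw [hμ']
      exact hm.indicator (julia_meas f)
    · rw [hμ']
      by_cases hx : x ∈ julia f
      · rw [indicator_of_mem hx]
        exact hb x
      · rw [indicator_of_notMem hx, norm_zero]
        exact hB0
    · apply hs
      intro h1
      have := hE₀.lt (Pool.Agent.R240.Gen.JJ_sub hf h1)
      linarith
    · have h1 := hcob z hz
      rw [hu, hu] at h1
      exact h1
  have monoC : ∀ p : ℂ[X], Coboundary f p univ → Coboundary f p E := by
    rintro p ⟨μ, B, hm, hb, hcob⟩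
    exact ⟨μ, B, hm, hb, fun z _ => hcob z (mem_univ z)⟩
  have monoL : ∀ p : ℂ[X], L1Inequality f p univ → L1Inequality f p E := by
    rintro p ⟨C, hC⟩
    exact ⟨C, fun s a _ => hC s a fun z _ => mem_univ z⟩
  have up : ∀ (μ : ℂ → ℂ) (B : ℝ) (p : ℂ[X]), Pool.Agent.R240.Cau.BS R₀ B μ →
      (∀ x, x ∉ julia f → μ x = 0) →
      (∀ z, Pool.Agent.R240.Cau.cau μ (f.eval z) -
        f.derivative.eval z * Pool.Agent.R240.Cau.cau μ z = p.eval z) →
      Coboundary f p univ ∧ L1Inequality f p univ := by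
    intro μ B p hb hs hcob
    refine ⟨⟨μ, B, hb.meas, hb.bdd, fun z _ => ?_⟩, B, ?_⟩
    · rw [u_eq (f := f) hs, u_eq (f := f) hs]
      exact hcob z
    · have h1 := Pool.Agent.R240.Gen.ineq_of_cob hf hb hs (E := univ) (fun z _ => hcob z)
      intro s a hsE
      have h2 := h1 s a hsE
      simp only [κ_eq]
      exact h2
  refine ⟨?_, ?_⟩
  · tfae_have 1 → 3 := by
      rintro ⟨μ, hμ⟩
      obtain ⟨hb, hs, p, hp, hdeg, hcob⟩ :=
        Pool.Agent.R240.Gen.cob_of_line hf hE₀ ((line_iff f μ).1 hμ)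
      exact ⟨p, hp, hdeg, (up μ 1 p hb hs hcob).1⟩
    tfae_have 1 → 5 := by
      rintro ⟨μ, hμ⟩
      obtain ⟨hb, hs, p, hp, hdeg, hcob⟩ :=
        Pool.Agent.R240.Gen.cob_of_line hf hE₀ ((line_iff f μ).1 hμ)
      exact ⟨p, hp, hdeg, (up μ 1 p hb hs hcob).2⟩
    tfae_have 3 → 2 := by
      rintro ⟨p, hp, _, h⟩
      exact ⟨p, hp, monoC p h⟩
    tfae_have 5 → 4 := by
      rintro ⟨p, hp, _, h⟩
      exact ⟨p, hp, monoL p h⟩
    tfae_have 4 → 1 := by
      rintro ⟨p, hp, h⟩
      exact g41 p hp h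
    tfae_have 2 → 1 := by
      rintro ⟨p, hp, h⟩
      exact g21 p hp h
    tfae_finish
  · intro d c hfd
    have hd : 2 ≤ d := by
      rw [hfd, natDegree_X_pow_add_C] at hf
      exact hf
    have hup : (∃ μ, InvariantLineField f μ) → Coboundary f 1 univ ∧ L1Inequality f 1 univ := by
      rintro ⟨ν, hν⟩
      have hν' := (line_iff f ν).1 hν
      have hfu : f = Pool.Agent.R240.Gen.uni d c := hfd
      rw [hfu] at hν' hE₀
      obtain ⟨μ, B, hb, hs, hcob⟩ := Pool.Agent.R240.Gen.uni_cob hd hE₀ hν'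
      rw [← hfu] at hs hcob
      exact up μ B 1 hb hs (fun z => by
        rw [eval_one]
        exact hcob z)
    tfae_have 1 → 3 := fun h => (hup h).1
    tfae_have 1 → 5 := fun h => (hup h).2
    tfae_have 3 → 2 := monoC 1
    tfae_have 5 → 4 := monoL 1
    tfae_have 4 → 1 := g41 1 one_ne_zero
    tfae_have 2 → 1 := g21 1 one_ne_zero
    tfae_finish

end Pool.Agent.Results.MP_70a088_an.AllPolynomials
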