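import Mathlib
import Pool.Agent.R240.ExpM

set_option autoImplicit false

open Filter Topology Set Metric Complex MeasureTheory
open scoped ComplexConjugate

namespace Pool.Agent.Results.MP_70a088_an.ExponentialMaps

/-- The exponential map `z ↦ e ^ z + c`. -/
noncomputable def f (c z : ℂ) : ℂ := exp z + c

/-- The chordal distance of two points of the plane (on a sphere of diameter one). -/
noncomputable def chordal (a b : ℂ) : ℝ := ‖a - b‖ / (√(1 + ‖a‖ ^ 2) * √(1 + ‖b‖ ^ 2))

/-- The Fatou set of `f c`: the points with a disc around them at every point of which the iterates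
of `f c` are equicontinuous for the chordal distance. -/
def fatou (c : ℂ) : Set ℂ := {z | ∃ r > 0, ∀ w ∈ ball z r, ∀ ε > 0, ∃ δ > 0, ∀ w' ∈ ball w δ,
  ∀ n : ℕ, chordal ((f c)^[n] w) ((f c)^[n] w') < ε}

/-- The Julia set is the complement of the Fatou set. -/
def julia (c : ℂ) : Set ℂ := (fatou c)ᶜ

/-- `μ` is an invariant line field of `f c` supported on the Julia set. -/
def InvariantLineField (c : ℂ) (μ : ℂ → ℂ) : Prop :=
  Measurable μ ∧
    (∃ X : Set ℂ, MeasurableSet X ∧ 0 < volume X ∧ X ⊆ julia c ∧ (∀ z ∈ X, ‖μ z‖ = 1) ∧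
      ∀ z, z ∉ X → μ z = 0) ∧
    ∀ᵐ z : ℂ, μ (f c z) * conj (deriv (f c) z) / deriv (f c) z = μ z

/-- The Ruelle operator `g ↦ (y ↦ ∑ g(x) / f'(x) ^ 2)`, the sum over all `x` with `f x = y`. -/
noncomputable def ruelle (c : ℂ) (g : ℂ → ℂ) (y : ℂ) : ℂ :=
  ∑' x : {x : ℂ // f c x = y}, g x / deriv (f c) x ^ 2

/-- The `L¹` norm on the Julia set of the mean of the first `N` iterates of the Ruelle operator. -/
noncomputable def meanNorm (c : ℂ) (g : ℂ → ℂ) (N : ℕ) : ℝ :=
  ∫ y in julia c, ‖(∑ n ∈ Finset.range N, (ruelle c)^[n] g y) / N‖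

/-- The rational function `1 / ((x - c) (x - f(c)) (x - f(f(c))))` of `x`. -/
noncomputable def T (c x : ℂ) : ℂ := 1 / ((x - c) * (x - f c c) * (x - f c (f c c)))

/-- The rational function `(z - c) (z - f(c)) / ((x - z) (x - c) (x - f(c)))` of `x`. -/
noncomputable def K (c z x : ℂ) : ℂ :=
  (z - c) * (z - f c c) / ((x - z) * (x - c) * (x - f c c))

/-- The rational function
`K_z - K_{f(z)} / f'(z) - (z - c) / ((c - f(c)) f'(f(c))) K_{f(f(c))}` of `x`. -/
noncomputable def W (c z x : ℂ) : ℂ :=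
  K c z x - K c (f c z) x / deriv (f c) z -
    (z - c) / ((c - f c c) * deriv (f c) (f c c)) * K c (f c (f c c)) x

/-- `h` is a limit in `L¹` of the Julia set of finite linear combinations of the functions `W c z`
with `z ∈ E`. -/
def InClosure (c : ℂ) (E : Set ℂ) (h : ℂ → ℂ) : Prop :=
  ∀ ε : ℝ, 0 < ε → ∃ (s : Finset ℂ) (a : ℂ → ℂ), (∀ z ∈ s, z ∈ E) ∧
    ∫ x in julia c, ‖h x - ∑ z ∈ s, a z * W c z x‖ < ε

theorem f_eq (c : ℂ) : f c = Pool.Agent.R240.Ex.ff c := rfl

theorem julia_eq (c : ℂ) : julia c = Pool.Agent.R240.Ex.JE c := rfl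

theorem line_iff (c : ℂ) (μ : ℂ → ℂ) :
    InvariantLineField c μ ↔ Pool.Agent.R240.Ex.LineJ c μ := by
  have h : ∀ z, μ (f c z) * conj (deriv (f c) z) / deriv (f c) z =
      μ (Pool.Agent.R240.Ex.ff c z) * (conj (cexp z) / cexp z) := by
    intro z
    rw [f_eq, Pool.Agent.R240.Ex.ff_deriv, mul_div_assoc]
  unfold InvariantLineField Pool.Agent.R240.Ex.LineJ
  simp only [h, julia_eq]
  constructor
  · rintro ⟨h1, h2, h3⟩
    exact ⟨h1, h3, h2⟩
  · rintro ⟨h1, h2, h3⟩
    exact ⟨h1, h3, h2⟩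

theorem ruelle_eq (c : ℂ) : ruelle c = Pool.Agent.R240.Ex.RE c := by
  funext g y
  unfold ruelle Pool.Agent.R240.Ex.RE
  by_cases hy : y = c
  · subst hy
    have h1 : IsEmpty {x : ℂ // f y x = y} := by
      constructor
      rintro ⟨x, hx⟩
      unfold f at hx
      exact Complex.exp_ne_zero x (by linear_combination hx)
    rw [tsum_empty]
    simp
  · obtain ⟨e, he⟩ : ∃ e : ℤ ≃ {x : ℂ // f c x = y},
        ∀ k, (e k : ℂ) = Pool.Agent.R240.Ex.br c k y := by
      have hb : Function.Bijective (fun k : ℤ =>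
          (⟨Pool.Agent.R240.Ex.br c k y, Pool.Agent.R240.Ex.ff_br hy k⟩ :
            {x : ℂ // f c x = y})) := by
        constructor
        · intro k l hkl
          have h1 : Pool.Agent.R240.Ex.br c k y = Pool.Agent.R240.Ex.br c l y :=
            congrArg Subtype.val hkl
          by_contra hne
          have h2 := Pool.Agent.R240.Ex.strip_disj hne
          exact Set.disjoint_left.1 h2 (Pool.Agent.R240.Ex.br_mem (c := c) y k)
            (by rw [h1]; exact Pool.Agent.R240.Ex.br_mem y l)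
        · rintro ⟨x, hx⟩
          have h1 : x ∈ ⋃ k : ℤ, Pool.Agent.R240.Ex.strip k := by
            rw [Pool.Agent.R240.Ex.strip_union]
            exact mem_univ _
          obtain ⟨k, hk⟩ := mem_iUnion.1 h1
          refine ⟨k, Subtype.ext ?_⟩
          have h2 := Pool.Agent.R240.Ex.br_ff (c := c) hk
          rw [← f_eq, hx] at h2
          exact h2
      exact ⟨Equiv.ofBijective _ hb, fun k => rfl⟩
    rw [← e.tsum_eq]
    congr 1
    funext k
    rw [he, f_eq, Pool.Agent.R240.Ex.ff_deriv, Pool.Agent.R240.Ex.exp_br hy]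

theorem T_eq (c : ℂ) : T c = Pool.Agent.R240.Ex.TE c := by
  funext x
  unfold T Pool.Agent.R240.Ex.TE
  rw [f_eq]
  congr 1
  ring

theorem K_eq (c z x : ℂ) : K c z x = Pool.Agent.R240.Ex.KE c z x := by
  unfold K Pool.Agent.R240.Ex.KE
  rw [f_eq, mul_one_div]

theorem W_eq (c z x : ℂ) : W c z x = Pool.Agent.R240.Ex.WE c z x := by
  unfold W Pool.Agent.R240.Ex.WE
  rw [K_eq, K_eq, K_eq, f_eq, Pool.Agent.R240.Ex.ff_deriv, Pool.Agent.R240.Ex.ff_deriv,
    div_mul_eq_div_div]
  ring

theorem closure_iff (c : ℂ) (E : Set ℂ) (h : ℂ → ℂ) :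
    InClosure c E h ↔ Pool.Agent.R240.Ex.ClJ c E h := by
  unfold InClosure Pool.Agent.R240.Ex.ClJ
  simp only [W_eq, julia_eq]

/-- **Invariant line fields of exponential maps.** Let `f(z) = e ^ z + c`. If `f(f(c)) = f(c)` there
is no invariant line field on the Julia set. If `f(f(c)) ≠ f(c)`, then for every dense set `E` of the
plane the following are equivalent: `f` has no invariant line field on its Julia set; the rational
function `T` is an `L¹`-limit on the Julia set of finite linear combinations of the rational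
functions `W c z`, `z ∈ E`; every integrable function on the Julia set is such a limit; the means of
the Ruelle iterates of `T` are arbitrarily small in `L¹` of the Julia set; the means of the Ruelle
iterates of all integrable functions converge to zero there. -/
theorem result (c : ℂ) {E : Set ℂ} (hE : Dense E) :
    (f c (f c c) = f c c → ¬ ∃ μ, InvariantLineField c μ) ∧
    (f c (f c c) ≠ f c c →
      [¬ ∃ μ, InvariantLineField c μ,
        InClosure c E (T c),
        ∀ h : ℂ → ℂ, IntegrableOn h (julia c) → InClosure c E h,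
        ∀ ε : ℝ, 0 < ε → ∃ N : ℕ, 0 < N ∧ meanNorm c (T c) N < ε,
        ∀ g : ℂ → ℂ, IntegrableOn g (julia c) → Tendsto (meanNorm c g) atTop (𝓝 0)].TFAE) := by
  have hline : (¬ ∃ μ, InvariantLineField c μ) ↔ Pool.Agent.R240.Ex.NoInv c := by
    rw [Pool.Agent.R240.Ex.noInv_iff]
    simp only [line_iff]
  refine ⟨fun hc => ?_, fun hc => ?_⟩
  · rw [hline]
    intro B μ hμ hs
    apply hμ.zero_J _ hs
    rw [← f_eq, hc, f_eq]
    exact Pool.Agent.R240.Ex.VE_b
  have hTi : Integrable (T c) := by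
    rw [T_eq]
    exact Pool.Agent.R240.Ex.TE_int hc
  have hm : ∀ g : ℂ → ℂ, meanNorm c g = fun N : ℕ => ∫ x in Pool.Agent.R240.Ex.JE c,
      ‖(∑ n ∈ Finset.range N, (Pool.Agent.R240.Ex.RE c)^[n] g x) / N‖ := by
    intro g
    funext N
    unfold meanNorm
    rw [ruelle_eq, julia_eq]
  tfae_have 1 → 5 := by
    intro hno g hg
    rw [hm]
    exact Pool.Agent.R240.Ex.erg_J (hline.1 hno) hg
  tfae_have 5 → 4 := by
    intro h ε hε
    obtain ⟨N, hN⟩ := (((h _ hTi.integrableOn).eventually (gt_mem_nhds hε)).and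
      (eventually_gt_atTop 0)).exists
    exact ⟨N, hN.2, hN.1⟩
  tfae_have 4 → 1 := by
    intro h
    rw [hline]
    intro B μ hμ hs
    apply hμ.zero_T hs
    rw [hm, T_eq] at h
    exact hμ.orth_of_means hs (by rw [← T_eq]; exact hTi) h
  tfae_have 1 → 3 := by
    intro hno h hh
    exact (closure_iff c E h).2 (Pool.Agent.R240.Ex.dense_WJ hE (hline.1 hno) hh)
  tfae_have 3 → 2 := fun h => h _ hTi.integrableOn
  tfae_have 2 → 1 := by
    intro h
    rw [hline]
    intro B μ hμ hs
    apply hμ.zero_T hs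
    rw [← T_eq]
    exact hμ.orth_of_Cl hs hTi ((closure_iff c E _).1 h)
  tfae_finish

end Pool.Agent.Results.MP_70a088_an.ExponentialMaps
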