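import Mathlib
import Pool.Agent.R240.GenM

set_option autoImplicit false

open Filter Topology Set Metric Complex MeasureTheory Polynomial
open scoped ComplexConjugate

namespace Pool.Agent.Results.MP_70a088_an.RuelleMeans

/-- The filled Julia set of a polynomial: the points with bounded orbits. -/
def filledJulia (f : ℂ[X]) : Set ℂ := {z | ∃ B : ℝ, ∀ n : ℕ, ‖(fun z => f.eval z)^[n] z‖ ≤ B}

/-- The Julia set of a polynomial is the boundary of its filled Julia set. -/
def julia (f : ℂ[X]) : Set ℂ := frontier (filledJulia f)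

/-- `μ` is an invariant line field of `f` supported on the Julia set. -/
def InvariantLineField (f : ℂ[X]) (μ : ℂ → ℂ) : Prop :=
  Measurable μ ∧
    (∃ X : Set ℂ, MeasurableSet X ∧ 0 < volume X ∧ X ⊆ julia f ∧ (∀ z ∈ X, ‖μ z‖ = 1) ∧
      ∀ z, z ∉ X → μ z = 0) ∧
    ∀ᵐ z : ℂ, μ (f.eval z) * conj (f.derivative.eval z) / f.derivative.eval z = μ z

/-- The polynomial function `f'(x) ∑_{i < D} x ^ i A_i(f x) - A_{D - 1}(x) / a` of `x`, where `D` is
the degree and `a` the leading coefficient of `f`, and `A_0, …, A_{D - 1}` are polynomials. -/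
noncomputable def w (f : ℂ[X]) (A : ℕ → ℂ[X]) (x : ℂ) : ℂ :=
  f.derivative.eval x * ∑ i ∈ Finset.range f.natDegree, x ^ i * (A i).eval (f.eval x) -
    (A (f.natDegree - 1)).eval x / f.leadingCoeff

/-- `h` belongs to the closure in `L¹` of the Julia set of the space of the functions `w f A`. -/
def InClosure (f : ℂ[X]) (h : ℂ → ℂ) : Prop :=
  ∀ ε : ℝ, 0 < ε → ∃ A : ℕ → ℂ[X], ∫ x in julia f, ‖h x - w f A x‖ < ε

/-- The Ruelle operator `g ↦ (y ↦ ∑ g(x) / f'(x) ^ 2)`, the sum over all `x` with `f x = y`. -/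
noncomputable def ruelle (f : ℂ[X]) (g : ℂ → ℂ) (y : ℂ) : ℂ :=
  ∑ x ∈ (f - C y).roots.toFinset, g x / f.derivative.eval x ^ 2

/-- The `L¹` norm on the Julia set of the mean of the first `N` iterates of the Ruelle operator. -/
noncomputable def meanNorm (f : ℂ[X]) (g : ℂ → ℂ) (N : ℕ) : ℝ :=
  ∫ y in julia f, ‖(∑ n ∈ Finset.range N, (ruelle f)^[n] g y) / N‖

theorem line_iff (f : ℂ[X]) (μ : ℂ → ℂ) :
    InvariantLineField f μ ↔ Pool.Agent.R240.Gen.LineField f μ := by
  have h : ∀ z, μ (f.eval z) * conj (f.derivative.eval z) / f.derivative.eval z =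
      Pool.Agent.R240.Gen.pbp f μ z := by
    intro z
    unfold Pool.Agent.R240.Gen.pbp
    rw [mul_div_assoc]
  unfold InvariantLineField Pool.Agent.R240.Gen.LineField
  simp only [h]
  constructor
  · rintro ⟨h1, h2, h3⟩
    exact ⟨h1, h3, h2⟩
  · rintro ⟨h1, h2, h3⟩
    exact ⟨h1, h3, h2⟩

theorem closure_iff {f : ℂ[X]} (hf : 2 ≤ f.natDegree) (h : ℂ → ℂ) :
    InClosure f h ↔ ∀ ε : ℝ, 0 < ε → ∃ P S : ℂ[X], Pool.Agent.R240.Gen.IsTrace f P S ∧
      ∫ x in Pool.Agent.R240.Gen.JJ f,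
        ‖h x - (f.derivative.eval x * P.eval x - S.eval x)‖ < ε := by
  have key : ∀ ε : ℝ, (∃ A : ℕ → ℂ[X], ∫ x in julia f, ‖h x - w f A x‖ < ε) ↔
      ∃ P S : ℂ[X], Pool.Agent.R240.Gen.IsTrace f P S ∧
        ∫ x in Pool.Agent.R240.Gen.JJ f,
          ‖h x - (f.derivative.eval x * P.eval x - S.eval x)‖ < ε := by
    intro ε
    exact (Pool.Agent.R240.Gen.trace_iff hf
      (fun G => ∫ x in Pool.Agent.R240.Gen.JJ f, ‖h x - G x‖ < ε)).symm
  constructor
  · intro hA ε hε
    exact (key ε).1 (hA ε hε)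
  · intro hA ε hε
    exact (key ε).2 (hA ε hε)

/-- **Polynomial density and Ruelle means.** For a polynomial `f` of degree `D ≥ 2` the following
are equivalent: there is no invariant line field on the Julia set; the monomials `x ^ k`,
`k ≤ D - 2`, are `L¹`-limits on the Julia set of the explicit polynomials `w f A`; these polynomials
are dense in `L¹` of the Julia set; the means of the Ruelle iterates of the monomials `x ^ k`,
`k ≤ D - 2`, are arbitrarily small in `L¹` of the Julia set; the means of the Ruelle iterates of all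
integrable functions converge to zero there. For `z ^ d + c` one monomial, `x ^ (d - 2)`, is
enough. -/
theorem result {f : ℂ[X]} (hf : 2 ≤ f.natDegree) :
    [¬ ∃ μ, InvariantLineField f μ,
      ∀ k : ℕ, k < f.natDegree - 1 → InClosure f (fun x => x ^ k),
      ∀ h : ℂ → ℂ, IntegrableOn h (julia f) → InClosure f h,
      ∀ k : ℕ, k < f.natDegree - 1 → ∀ ε : ℝ, 0 < ε → ∃ N : ℕ, 0 < N ∧
        meanNorm f (fun x => x ^ k) N < ε,
      ∀ g : ℂ → ℂ, IntegrableOn g (julia f) → Tendsto (meanNorm f g) atTop (𝓝 0)].TFAE ∧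
    ∀ (d : ℕ) (c : ℂ), f = X ^ d + C c →
      [¬ ∃ μ, InvariantLineField f μ,
        InClosure f (fun x => x ^ (d - 2)),
        ∀ ε : ℝ, 0 < ε → ∃ N : ℕ, 0 < N ∧ meanNorm f (fun x => x ^ (d - 2)) N < ε].TFAE := by
  have hline : (∃ μ, InvariantLineField f μ) ↔ ∃ μ, Pool.Agent.R240.Gen.LineField f μ := by
    constructor
    · rintro ⟨μ, hμ⟩
      exact ⟨μ, (line_iff f μ).1 hμ⟩
    · rintro ⟨μ, hμ⟩
      exact ⟨μ, (line_iff f μ).2 hμ⟩
  have hmon : ∀ k : ℕ, IntegrableOn (fun x : ℂ => x ^ k) (julia f) := by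
    intro k
    have h1 := memLp_one_iff_integrable.1 (Pool.Agent.R240.Gen.poly_memLp hf (X ^ k))
    refine h1.congr (Eventually.of_forall fun x => ?_)
    simp
  have hdense : (¬ ∃ μ, InvariantLineField f μ) →
      ∀ h : ℂ → ℂ, IntegrableOn h (julia f) → InClosure f h := by
    intro hno h hh
    rw [closure_iff hf]
    intro ε hε
    exact Pool.Agent.R240.Gen.dense_of_no_line hf (fun h1 => hno (hline.2 h1)) hh hε
  have herg : (¬ ∃ μ, InvariantLineField f μ) →
      ∀ g : ℂ → ℂ, IntegrableOn g (julia f) → Tendsto (meanNorm f g) atTop (𝓝 0) := by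
    intro hno g hg
    exact Pool.Agent.R240.Gen.erg_of_no_line hf (fun h1 => hno (hline.2 h1)) hg
  have hlim : ∀ g : ℂ → ℂ, Tendsto (meanNorm f g) atTop (𝓝 0) → ∀ ε : ℝ, 0 < ε →
      ∃ N : ℕ, 0 < N ∧ meanNorm f g N < ε := by
    intro g hg ε hε
    obtain ⟨N, hN⟩ := ((hg.eventually (gt_mem_nhds hε)).and (eventually_gt_atTop 0)).exists
    exact ⟨N, hN.2, hN.1⟩
  refine ⟨?_, ?_⟩
  · tfae_have 1 → 3 := hdense
    tfae_have 1 → 5 := herg
    tfae_have 3 → 2 := fun h k _ => h _ (hmon k)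
    tfae_have 5 → 4 := fun h k _ => hlim _ (h _ (hmon k))
    tfae_have 2 → 1 := by
      intro h h1
      refine Pool.Agent.R240.Gen.no_line_of_moments hf ?_ (hline.1 h1)
      intro R B μ hb hs hinv k hk
      exact Pool.Agent.R240.Gen.moment_zero hf hb hs hinv ((closure_iff hf _).1 (h k hk))
    tfae_have 4 → 1 := by
      intro h h1
      refine Pool.Agent.R240.Gen.no_line_of_moments hf ?_ (hline.1 h1)
      intro R B μ hb hs hinv k hk
      exact Pool.Agent.R240.Gen.moment_zero' hf hb hs hinv (h k hk)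
    tfae_finish
  · intro d c hfd
    have hd : 2 ≤ d := by
      rw [hfd, natDegree_X_pow_add_C] at hf
      exact hf
    have hfu : f = Pool.Agent.R240.Gen.uni d c := hfd
    have hmom : ∀ (R B : ℝ) (μ : ℂ → ℂ), Pool.Agent.R240.Cau.BS R B μ →
        Pool.Agent.R240.Gen.pbp f μ =ᵐ[volume] μ → (∫ x, μ x * x ^ (d - 2) = 0) →
        ∀ k : ℕ, k < f.natDegree - 1 → ∫ x, μ x * x ^ k = 0 := by
      intro R B μ hb hinv h0 k hk
      by_cases hk2 : k = d - 2
      · rw [hk2]
        exact h0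
      · rw [hfu, Pool.Agent.R240.Gen.uni_deg hd] at hk
        rw [hfu] at hinv
        apply Pool.Agent.R240.Gen.uni_moment hd hb hinv
        intro hdvd
        have := Nat.le_of_dvd (by omega) hdvd
        omega
    tfae_have 1 → 2 := fun h => hdense h _ (hmon _)
    tfae_have 1 → 3 := fun h => hlim _ (herg h _ (hmon _))
    tfae_have 2 → 1 := by
      intro h h1
      refine Pool.Agent.R240.Gen.no_line_of_moments hf ?_ (hline.1 h1)
      intro R B μ hb hs hinv
      exact hmom R B μ hb hinv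
        (Pool.Agent.R240.Gen.moment_zero hf hb hs hinv ((closure_iff hf _).1 h))
    tfae_have 3 → 1 := by
      intro h h1
      refine Pool.Agent.R240.Gen.no_line_of_moments hf ?_ (hline.1 h1)
      intro R B μ hb hs hinv
      exact hmom R B μ hb hinv (Pool.Agent.R240.Gen.moment_zero' hf hb hs hinv h)
    tfae_finish

end Pool.Agent.Results.MP_70a088_an.RuelleMeans
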